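import Pool.Agent.H15.SC.TargetsX

/-! # MP_f2954d_ag, modules XL1 XL2 XL3 XL4: orders of generating systems -/

namespace Pool.Agent.H36.SCX

open _root_.SC

section

variable {K : Type} [Field K] [Algebra ℂ K] {N n : ℕ} {w : Fin (N + 1) → K}

lemma inLoc_zero {i : Fin (N + 1)} {p : Ideal (chart w i)} (hp : p.IsMaximal) : InLoc p (0 : K) :=
  ⟨0, 1, fun h => hp.ne_top ((Ideal.eq_top_iff_one p).2 h), by simp⟩

/-- comparison of generators of two divisors -/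
lemma gen_quot (hF : T_XF) (hw : IsSmoothProj w n) {D D' : DivZ w} {i : Fin (N + 1)}
    {p : Ideal (chart w i)} {x x' : K} (hi : w i ≠ 0) (hp : p.IsMaximal) (hx : GenAt D p x)
    (hx' : GenAt D' p x') (hD : ∀ v : PDiv w, D' v ≤ D v) : InLoc p (x' / x) := by
  refine hF K N n w hw i p _ hi hp (div_ne_zero hx'.1 hx.1) fun v hv => ?_
  rw [v.1.ord_div hx'.1 hx.1]
  have h1 := hx.2 v hv
  have h2 := hx'.2 v hv
  have h3 := hD v
  omega

lemma sec_quot (hF : T_XF) (hw : IsSmoothProj w n) {D : DivZ w} {i : Fin (N + 1)}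
    {p : Ideal (chart w i)} {x y : K} (hi : w i ≠ 0) (hp : p.IsMaximal) (hx : GenAt D p x)
    (hy : y ∈ sections D) : InLoc p (y / x) := by
  by_cases hy0 : y = 0
  · rw [hy0, zero_div]
    exact inLoc_zero hp
  refine hF K N n w hw i p _ hi hp (div_ne_zero hy0 hx.1) fun v hv => ?_
  rw [v.1.ord_div hy0 hx.1]
  have h1 := hx.2 v hv
  rcases hy v with h2 | h2
  · exact absurd h2 hy0
  · omega

/-- the order of a generating system at one valuation -/
lemma mo_gen (hF : T_XF) (hw : IsSmoothProj w n) {D : DivZ w} {S : Sys K} {i : Fin (N + 1)}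
    {p : Ideal (chart w i)} {x : K} (hS : GenSys D S) (hi : w i ≠ 0) (hp : p.IsMaximal)
    (hx : GenAt D p x) (v : DV ℂ K) (hv : ∀ y, InLoc p y → 0 ≤ v.ord y) : v.mo S = v.ord x := by
  apply v.mo_eq_of
  · intro j hj
    have h1 := hv _ (sec_quot hF hw hi hp hx (hS.1 j))
    rw [v.ord_div hj hx.1] at h1
    omega
  · obtain ⟨j, hj⟩ := hS.2 i hi p hp
    refine ⟨j, hj.1, ?_⟩
    have h1 := hv _ (gen_quot hF hw hi hp hx hj fun _ => le_rfl)
    have h2 := hv _ (gen_quot hF hw hi hp hj hx fun _ => le_rfl)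
    rw [v.ord_div hj.1 hx.1] at h1
    rw [v.ord_div hx.1 hj.1] at h2
    omega

lemma ord_g (v : DV ℂ K) {x : K} (hx : x ≠ 0) {m : ℤ} (hm : m = v.ord x) :
    x * v.unif ^ (-m) ≠ 0 ∧ v.ord (x * v.unif ^ (-m)) = 0 := by
  refine ⟨mul_ne_zero hx (v.unif_zpow_ne_zero _), ?_⟩
  rw [v.ord_mul' hx (v.unif_zpow_ne_zero _), v.ord_unif_zpow]
  omega

/-- the order of the restriction of a generating system -/
lemma mo_res_gen (hF : T_XF) (hw : IsSmoothProj w n) {D : DivZ w} {S : Sys K} {i : Fin (N + 1)}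
    {p : Ideal (chart w i)} {x : K} (hS : GenSys D S) (hi : w i ≠ 0) (hp : p.IsMaximal)
    (hx : GenAt D p x) (v : DV ℂ K) (u : DV ℂ v.Res)
    (hvu : ∀ y, InLoc p y → 0 ≤ v.ord y ∧ 0 ≤ u.ord (v.red y)) :
    u.mo (v.res S) = u.ord (v.red (x * v.unif ^ (- v.mo S))) := by
  have hm := mo_gen hF hw hS hi hp hx v fun y hy => (hvu y hy).1
  obtain ⟨hg0, hg⟩ := ord_g v hx.1 hm
  have hr : v.red (x * v.unif ^ (- v.mo S)) ≠ 0 := v.red_ne_zero hg0 hg
  have key : ∀ j, (v.res S).s j =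
      v.red (x * v.unif ^ (- v.mo S)) * v.red (S.s j / x) := by
    intro j
    rw [← v.red_mul hg.ge (hvu _ (sec_quot hF hw hi hp hx (hS.1 j))).1, v.res_s]
    congr 1
    have := hx.1
    field_simp
  apply u.mo_eq_of
  · intro j hj
    rw [key] at hj ⊢
    have h1 := (hvu _ (sec_quot hF hw hi hp hx (hS.1 j))).2
    rw [u.ord_mul' hr (right_ne_zero_of_mul hj)]
    omega
  · obtain ⟨j, hj⟩ := hS.2 i hi p hp
    have h1 := hvu _ (gen_quot hF hw hi hp hx hj fun _ => le_rfl)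
    have h2 := hvu _ (gen_quot hF hw hi hp hj hx fun _ => le_rfl)
    have h3 : v.red (S.s j / x) * v.red (x / S.s j) = 1 := by
      rw [← v.red_mul h1.1 h2.1]
      have e : S.s j / x * (x / S.s j) = 1 := by
        have := hx.1
        have := hj.1
        field_simp
      rw [e, v.red_one]
    have h4 : v.red (S.s j / x) ≠ 0 := left_ne_zero_of_mul (by rw [h3]; exact one_ne_zero)
    have h5 : v.red (x / S.s j) ≠ 0 := right_ne_zero_of_mul (by rw [h3]; exact one_ne_zero)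
    have h6 := u.ord_mul' h4 h5
    rw [h3, u.ord_one] at h6
    refine ⟨j, ?_, ?_⟩
    · rw [key]
      exact mul_ne_zero hr h4
    · rw [key, u.ord_mul' hr h4]
      have := h1.2
      have := h2.2
      omega

/-- the composite of two valuations -/
noncomputable def cmp {k K : Type} [Field k] [Field K] [Algebra k K] (v : DV k K)
    (u : DV k v.Res) : ValuationSubring K where
  carrier := {y | 0 ≤ v.ord y ∧ 0 ≤ u.ord (v.red y)}
  mul_mem' := by
    rintro a b ⟨ha, ha'⟩ ⟨hb, hb'⟩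
    refine ⟨v.ord_mul_nonneg ha hb, ?_⟩
    rw [v.red_mul ha hb]
    exact u.ord_mul_nonneg ha' hb'
  one_mem' := by
    refine ⟨v.ord_one.ge, ?_⟩
    rw [v.red_one, u.ord_one]
  add_mem' := by
    rintro a b ⟨ha, ha'⟩ ⟨hb, hb'⟩
    refine ⟨v.ord_add_nonneg ha hb, ?_⟩
    rw [v.red_add ha hb]
    exact u.ord_add_nonneg ha' hb'
  zero_mem' := by
    refine ⟨v.ord_zero.ge, ?_⟩
    rw [v.red_zero, u.ord_zero]
  neg_mem' := by
    rintro a ⟨ha, ha'⟩
    refine ⟨by rw [v.ord_neg]; exact ha, ?_⟩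
    rw [v.red_neg, u.ord_neg]
    exact ha'
  mem_or_inv_mem' := by
    intro x
    rcases lt_trichotomy (v.ord x) 0 with h | h | h
    · right
      refine ⟨by rw [v.ord_inv]; omega, ?_⟩
      rw [v.red_eq_zero_of_pos (by rw [v.ord_inv]; omega), u.ord_zero]
    · rcases le_total 0 (u.ord (v.red x)) with h1 | h1
      · exact Or.inl ⟨h.ge, h1⟩
      · right
        refine ⟨by rw [v.ord_inv]; omega, ?_⟩
        rw [v.red_inv h, u.ord_inv]
        omega
    · left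
      refine ⟨h.le, ?_⟩
      rw [v.red_eq_zero_of_pos h, u.ord_zero]

lemma mem_cmp {k K : Type} [Field k] [Field K] [Algebra k K] {v : DV k K}
    {u : DV k v.Res} {x : K} : x ∈ cmp v u ↔ 0 ≤ v.ord x ∧ 0 ≤ u.ord (v.red x) := Iff.rfl

/-- the centre of a composite valuation -/
lemma exists_centre₂ (hA : T_XA) (hw : IsSmoothProj w n) (v : DV ℂ K) (u : DV ℂ v.Res) :
    ∃ i, w i ≠ 0 ∧ ∃ p : Ideal (chart w i), p.IsMaximal ∧
      ∀ y, InLoc p y → 0 ≤ v.ord y ∧ 0 ≤ u.ord (v.red y) := by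
  obtain ⟨i, hi, p, hp, h⟩ := hA K N n w hw (cmp v u) fun c => by
    refine mem_cmp.2 ⟨(v.ord_base c).ge, ?_⟩
    rw [v.red_algebraMap, u.ord_base]
  exact ⟨i, hi, p, hp, h⟩

lemma exists_centre (hA : T_XA) (hw : IsSmoothProj w n) (v : DV ℂ K) :
    ∃ i, w i ≠ 0 ∧ ∃ p : Ideal (chart w i), p.IsMaximal ∧ ∀ y, InLoc p y → 0 ≤ v.ord y := by
  obtain ⟨i, hi, p, hp, h⟩ := hA K N n w hw v.vs fun c => (v.ord_base c).ge
  exact ⟨i, hi, p, hp, h⟩

lemma genAt_mul {D D' : DivZ w} {i : Fin (N + 1)} {p : Ideal (chart w i)} {x x' : K}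
    (hx : GenAt D p x) (hx' : GenAt D' p x') : GenAt (D + D') p (x * x') := by
  refine ⟨mul_ne_zero hx.1 hx'.1, fun v hv => ?_⟩
  rw [v.1.ord_mul' hx.1 hx'.1, Finsupp.add_apply]
  have h1 := hx.2 v hv
  have h2 := hx'.2 v hv
  omega

end

theorem xl1 (hF : T_XF) : T_XL1 := by
  intro K _ _ N n w hw D S i p x hS hi hp hx
  exact ⟨fun v hv => mo_gen hF hw hS hi hp hx v hv, fun v u h => mo_res_gen hF hw hS hi hp hx v u h⟩

theorem xl2 (hF : T_XF) (hB : T_XB) (hA : T_XA) : T_XL2 := by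
  intro K _ _ N n w hw D D' S S' T hS hS' hT
  have h1 : ∀ v : DV ℂ K, v.mo T = v.mo S + v.mo S' := by
    intro v
    obtain ⟨i, hi, p, hp, h⟩ := exists_centre hA hw v
    obtain ⟨j, hj⟩ := hS.2 i hi p hp
    obtain ⟨j', hj'⟩ := hS'.2 i hi p hp
    rw [mo_gen hF hw hS hi hp hj v h, mo_gen hF hw hS' hi hp hj' v h,
      mo_gen hF hw hT hi hp (genAt_mul hj hj') v h, v.ord_mul' hj.1 hj'.1]
  refine ⟨h1, ?_, ?_⟩
  · intro v
    obtain ⟨i, hi, p, hp, h⟩ := exists_centre hA hw v.1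
    obtain ⟨j, hj⟩ := hS.2 i hi p hp
    rw [mo_gen hF hw hS hi hp hj v.1 h]
    have := hj.2 v ((hB K N w i p v hp).2 h)
    omega
  · intro v u
    obtain ⟨i, hi, p, hp, h⟩ := exists_centre₂ hA hw v u
    obtain ⟨j, hj⟩ := hS.2 i hi p hp
    obtain ⟨j', hj'⟩ := hS'.2 i hi p hp
    rw [mo_res_gen hF hw hS hi hp hj v u h, mo_res_gen hF hw hS' hi hp hj' v u h,
      mo_res_gen hF hw hT hi hp (genAt_mul hj hj') v u h]
    obtain ⟨g0, g⟩ := ord_g v hj.1 (mo_gen hF hw hS hi hp hj v fun y hy => (h y hy).1)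
    obtain ⟨g0', g'⟩ := ord_g v hj'.1 (mo_gen hF hw hS' hi hp hj' v fun y hy => (h y hy).1)
    rw [← u.ord_mul' (v.red_ne_zero g0 g) (v.red_ne_zero g0' g'), ← v.red_mul g.ge g'.ge, h1 v]
    congr 2
    rw [neg_add, zpow_add₀ v.unif_ne_zero]
    ring

theorem xl3 (hF : T_XF) (hB : T_XB) (hA : T_XA) : T_XL3 := by
  intro K _ _ N n w hw D D' S S' hS hS' hD v hv u
  obtain ⟨i, hi, p, hp, h⟩ := exists_centre₂ hA hw v.1 u
  obtain ⟨j, hj⟩ := hS.2 i hi p hp
  obtain ⟨j', hj'⟩ := hS'.2 i hi p hp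
  have ht : Through v p := (hB K N w i p v hp).2 fun y hy => (h y hy).1
  have e1 := mo_gen hF hw hS hi hp hj v.1 fun y hy => (h y hy).1
  have e2 := mo_gen hF hw hS' hi hp hj' v.1 fun y hy => (h y hy).1
  have e3 := hj.2 v ht
  have e4 := hj'.2 v ht
  have e5 : v.1.mo S' = v.1.mo S := by omega
  have hq := h _ (gen_quot hF hw hi hp hj hj' hD)
  obtain ⟨g0, g⟩ := ord_g v.1 hj.1 e1
  rw [mo_res_gen hF hw hS hi hp hj v.1 u h, mo_res_gen hF hw hS' hi hp hj' v.1 u h, e5]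
  have e6 : S'.s j' * v.1.unif ^ (- v.1.mo S) =
      S.s j * v.1.unif ^ (- v.1.mo S) * (S'.s j' / S.s j) := by
    have := hj.1
    field_simp
  have e7 : v.1.ord (S'.s j' / S.s j) = 0 := by
    rw [v.1.ord_div hj'.1 hj.1]
    omega
  rw [e6, v.1.red_mul g.ge hq.1, u.ord_mul' (v.1.red_ne_zero g0 g)
    (v.1.red_ne_zero (div_ne_zero hj'.1 hj.1) e7)]
  have := hq.2
  omega

theorem xl4 (hF : T_XF) (hA : T_XA) : T_XL4 := by
  intro K _ _ N n w hw D D' S S' hS hS' hD v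
  obtain ⟨i, hi, p, hp, h⟩ := exists_centre hA hw v
  obtain ⟨j, hj⟩ := hS.2 i hi p hp
  obtain ⟨j', hj'⟩ := hS'.2 i hi p hp
  rw [mo_gen hF hw hS hi hp hj v h, mo_gen hF hw hS' hi hp hj' v h]
  have h1 := h _ (gen_quot hF hw hi hp hj hj' hD)
  rw [v.ord_div hj'.1 hj.1] at h1
  omega

end Pool.Agent.H36.SCX
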